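import Pool.Agent.Helper42.OWN.FlowD

set_option autoImplicit false

namespace Pool.Agent.Results.MP_84601c_co.CubicFlowRoot

open Finset

/-- There are a number `n ≤ 452`, a multigraph with `2 n` vertices and `3 n` edges (`ends e` is the
unordered pair of the ends of the edge `e`; parallel edges are allowed), which has no loops, which
is cubic and which has no bridge, and a polynomial `Q ≠ 0` with integer coefficients such that for
every orientation (`s e` is the tail and `t e` is the head of `e`) and for every `k ≥ 1` the number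
of nowhere-zero `ZMod k`-flows is `Q k`, and `Q` has a real root in the interval from `193/32` to
`7`. -/
theorem result :
    ∃ (n : ℕ) (ends : Fin (3 * n) → Sym2 (Fin (2 * n))) (Q : Polynomial ℤ) (x : ℝ),
      n ≤ 452 ∧
      (∀ e, ¬ (ends e).IsDiag) ∧
      (∀ v, (univ.filter (fun e => v ∈ ends e)).card = 3) ∧
      (∀ (S : Set (Fin (2 * n))) (e : Fin (3 * n)), (∃ a ∈ S, ∃ b ∉ S, ends e = s(a, b)) →
        ∃ e', e' ≠ e ∧ ∃ a ∈ S, ∃ b ∉ S, ends e' = s(a, b)) ∧
      (∀ s t : Fin (3 * n) → Fin (2 * n), (∀ e, s(s e, t e) = ends e) → ∀ k : ℕ, 1 ≤ k →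
        Q.eval (k : ℤ) = Nat.card {f : Fin (3 * n) → ZMod k // (∀ e, f e ≠ 0) ∧
          ∀ v, ∑ e ∈ univ.filter (fun e => t e = v), f e =
            ∑ e ∈ univ.filter (fun e => s e = v), f e}) ∧
      Q ≠ 0 ∧ Polynomial.aeval x Q = 0 ∧ 193 / 32 < x ∧ x ≤ 7 :=
  Pool.Agent.Helper42.OWN.FlowD.main

end Pool.Agent.Results.MP_84601c_co.CubicFlowRoot
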